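import Mathlib
import Pool.Agent.U514.TG.Stm

set_option autoImplicit false

namespace Pool.Agent.U261.TG

open Finset
open Pool.Agent.U514.TG

section dec

theorem dec1 {a b n : ℕ} (hb : b < n) : (a * n + b) / n = a := by
  have hn : 0 < n := by omega
  rw [Nat.mul_comm, Nat.mul_add_div hn, Nat.div_eq_of_lt hb, Nat.add_zero]

theorem dec2 {a b n : ℕ} (hb : b < n) : (a * n + b) % n = b := by
  rw [Nat.mul_comm, Nat.mul_add_mod, Nat.mod_eq_of_lt hb]

theorem enc {a n : ℕ} : a = a / n * n + a % n := by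
  rw [Nat.mul_comm]; exact (Nat.div_add_mod a n).symm

end dec

variable {F V : Type} [Field F] (p : Par F V)

theorem inStrip_unique {τ τ' : Fin p.nT} {col : ℕ} (h : p.InStrip τ col) (h' : p.InStrip τ' col) :
    τ = τ' := Fin.ext (h.1.symm.trans h'.1)

theorem choose_eq {τ : Fin p.nT} {col : ℕ} (h : p.InStrip τ col)
    (h' : ∃ τ : Fin p.nT, p.InStrip τ col) : h'.choose = τ :=
  inStrip_unique p h'.choose_spec h

/-- the column of `τ`. -/
def colOf (τ : Fin p.nT) (i k : ℕ) : ℕ :=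
  ((τ.val * p.m + i / p.t τ) * p.m + k / p.t τ) * p.W +
    (p.t τ ^ 2 + 2 * (k % p.t τ * p.t τ + i % p.t τ) + 1)

variable {p}

theorem c_lt (hp : p.Good) (τ : Fin p.nT) (i k : ℕ) :
    p.t τ ^ 2 + 2 * (k % p.t τ * p.t τ + i % p.t τ) + 1 < 3 * p.t τ ^ 2 := by
  have ht := hp.t_pos τ
  have h1 : i % p.t τ < p.t τ := Nat.mod_lt _ ht
  have h2 : k % p.t τ < p.t τ := Nat.mod_lt _ ht
  nlinarith

theorem c_lt_W (hp : p.Good) (τ : Fin p.nT) (i k : ℕ) :
    p.t τ ^ 2 + 2 * (k % p.t τ * p.t τ + i % p.t τ) + 1 < p.W := by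
  have h1 := c_lt hp τ i k
  have h2 : p.t τ ≤ p.m := Nat.le_of_dvd hp.m_pos (hp.t_dvd τ)
  have h3 : p.t τ ^ 2 ≤ p.m ^ 2 := Nat.pow_le_pow_left h2 2
  show _ < 3 * p.m ^ 2 + 1
  omega

theorem cOf_colOf (hp : p.Good) (τ : Fin p.nT) (i k : ℕ) :
    p.cOf (colOf p τ i k) = p.t τ ^ 2 + 2 * (k % p.t τ * p.t τ + i % p.t τ) + 1 :=
  dec2 (c_lt_W hp τ i k)

theorem div_lt (hp : p.Good) (τ : Fin p.nT) {i : ℕ} (hi : i < p.m) :
    i / p.t τ < p.m / p.t τ :=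
  Nat.div_lt_div_of_lt_of_dvd (hp.t_dvd τ) hi

theorem div_lt' (τ : Fin p.nT) {i : ℕ} (hi : i < p.m) : i / p.t τ < p.m :=
  lt_of_le_of_lt (Nat.div_le_self _ _) hi

theorem sig_colOf (hp : p.Good) (τ : Fin p.nT) (i k : ℕ) :
    colOf p τ i k / p.W = (τ.val * p.m + i / p.t τ) * p.m + k / p.t τ :=
  dec1 (c_lt_W hp τ i k)

theorem Jof_colOf (hp : p.Good) (τ : Fin p.nT) (i : ℕ) {k : ℕ} (hk : k < p.m) :
    p.Jof (colOf p τ i k) = k / p.t τ := by
  unfold Par.Jof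
  rw [sig_colOf hp, dec2 (div_lt' τ hk)]

theorem Iof_colOf (hp : p.Good) (τ : Fin p.nT) {i k : ℕ} (hi : i < p.m) (hk : k < p.m) :
    p.Iof (colOf p τ i k) = i / p.t τ := by
  unfold Par.Iof
  rw [sig_colOf hp, dec1 (div_lt' τ hk), dec2 (div_lt' τ hi)]

theorem tauOf_colOf (hp : p.Good) (τ : Fin p.nT) {i k : ℕ} (hi : i < p.m) (hk : k < p.m) :
    p.tauOf (colOf p τ i k) = τ.val := by
  unfold Par.tauOf
  rw [sig_colOf hp, ← Nat.div_div_eq_div_mul, dec1 (div_lt' τ hk), dec1 (div_lt' τ hi)]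

theorem inStrip_colOf (hp : p.Good) (τ : Fin p.nT) {i k : ℕ} (hi : i < p.m) (hk : k < p.m) :
    p.InStrip τ (colOf p τ i k) := by
  refine ⟨tauOf_colOf hp τ hi hk, ?_, ?_, ?_⟩
  · rw [Iof_colOf hp τ hi hk]; exact div_lt hp τ hi
  · rw [Jof_colOf hp τ i hk]; exact div_lt hp τ hk
  · rw [cOf_colOf hp]; exact c_lt hp τ i k

theorem colOf_lt (hp : p.Good) (τ : Fin p.nT) {i k : ℕ} (hi : i < p.m) (hk : k < p.m) :
    colOf p τ i k < p.width := by
  have h1 := c_lt_W hp τ i k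
  have h2 := div_lt' (p := p) τ hi
  have h3 := div_lt' (p := p) τ hk
  have h4 : (τ.val * p.m + i / p.t τ) * p.m + k / p.t τ < p.nT * (p.m * p.m) := by
    have h5 : τ.val * p.m + i / p.t τ < p.nT * p.m := by
      have : (τ.val + 1) * p.m ≤ p.nT * p.m := Nat.mul_le_mul_right _ τ.isLt
      nlinarith
    have h6 : (τ.val * p.m + i / p.t τ + 1) * p.m ≤ p.nT * p.m * p.m :=
      Nat.mul_le_mul_right _ h5
    nlinarith
  have h7 : ((τ.val * p.m + i / p.t τ) * p.m + k / p.t τ + 1) * p.W ≤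
      p.nT * (p.m * p.m) * p.W := Nat.mul_le_mul_right _ h4
  unfold colOf Par.width
  calc _ < ((τ.val * p.m + i / p.t τ) * p.m + k / p.t τ) * p.W + p.W := by
        exact Nat.add_lt_add_left h1 _
    _ = ((τ.val * p.m + i / p.t τ) * p.m + k / p.t τ + 1) * p.W := by ring
    _ ≤ _ := h7

theorem oX_eq (x z : Fin p.nX) (i k : Fin p.m) :
    p.oX (((x.val * p.m + i.val) * p.nX + z.val) * p.m + k.val) = x.val := by
  unfold Par.oX
  rw [show p.m * (p.nX * p.m) = p.m * p.nX * p.m by ring, Nat.mul_comm (p.m * p.nX) p.m,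
    ← Nat.div_div_eq_div_mul, dec1 k.isLt, Nat.mul_comm p.m p.nX, ← Nat.div_div_eq_div_mul,
    dec1 z.isLt, dec1 i.isLt]

theorem oI_eq (x z : Fin p.nX) (i k : Fin p.m) :
    p.oI (((x.val * p.m + i.val) * p.nX + z.val) * p.m + k.val) = i.val := by
  unfold Par.oI
  rw [Nat.mul_comm p.nX p.m, ← Nat.div_div_eq_div_mul, dec1 k.isLt, dec1 z.isLt, dec2 i.isLt]

theorem oZ_eq (x z : Fin p.nX) (i k : Fin p.m) :
    p.oZ (((x.val * p.m + i.val) * p.nX + z.val) * p.m + k.val) = z.val := by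
  unfold Par.oZ
  rw [dec1 k.isLt, dec2 z.isLt]

theorem oK_eq (x z : Fin p.nX) (i k : Fin p.m) :
    p.oK (((x.val * p.m + i.val) * p.nX + z.val) * p.m + k.val) = k.val := by
  unfold Par.oK
  rw [dec2 k.isLt]

/-- value of `od` in a strip -/
theorem od_inStrip {τ : Fin p.nT} {col o : ℕ} (h : p.InStrip τ col) (hX : p.oX o < p.nX)
    (hZ : p.oZ o < p.nX) :
    p.od col o = if p.t τ ^ 2 ≤ p.cOf col ∧ (p.cOf col - p.t τ ^ 2) % 2 = 1 ∧
        p.Iof col * p.t τ + (p.cOf col - p.t τ ^ 2) / 2 % p.t τ = p.oI o ∧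
        p.Jof col * p.t τ + (p.cOf col - p.t τ ^ 2) / 2 / p.t τ = p.oK o then
        p.c τ ⟨p.oX o, hX⟩ ⟨p.oZ o, hZ⟩ else 0 := by
  unfold Par.od
  have hh : (∃ τ : Fin p.nT, p.InStrip τ col) ∧ p.oX o < p.nX ∧ p.oZ o < p.nX := ⟨⟨τ, h⟩, hX, hZ⟩
  rw [dif_pos hh]
  have hc : hh.1.choose = τ := choose_eq p h hh.1
  simp only [hc]

theorem ox_inStrip {τ : Fin p.nT} {col : ℕ} (h : p.InStrip τ col) :
    p.ox col = p.sx τ (p.Iof col) (p.Jof col) (p.cOf col) p.N 0 := by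
  unfold Par.ox
  have hh : ∃ τ : Fin p.nT, p.InStrip τ col := ⟨τ, h⟩
  rw [dif_pos hh]
  have hc : hh.choose = τ := choose_eq p h hh
  simp only [hc]

theorem q_eq (hp : p.Good) (τ : Fin p.nT) (i k : ℕ) :
    (p.cOf (colOf p τ i k) - p.t τ ^ 2) % 2 = 1 ∧
    (p.cOf (colOf p τ i k) - p.t τ ^ 2) / 2 = k % p.t τ * p.t τ + i % p.t τ := by
  rw [cOf_colOf hp]
  constructor <;> omega

theorem val_ox (hp : p.Good) (τ : Fin p.nT) {i k : ℕ} (hi : i < p.m) (hk : k < p.m) :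
    p.ox (colOf p τ i k) = p.M τ i k p.N := by
  have ht := hp.t_pos τ
  obtain ⟨h1, h2⟩ := q_eq hp τ i k
  have h0 : ¬ p.cOf (colOf p τ i k) < p.t τ ^ 2 := by rw [cOf_colOf hp]; omega
  rw [ox_inStrip (inStrip_colOf hp τ hi hk)]
  unfold Par.sx
  simp only [h2]
  rw [if_neg h0, if_neg (by rw [h1]; decide), if_pos (Nat.zero_le _),
    dec2 (Nat.mod_lt _ ht), dec1 (Nat.mod_lt _ ht), Iof_colOf hp τ hi hk, Jof_colOf hp τ i hk,
    ← enc, ← enc]

theorem val_od (hp : p.Good) (τ : Fin p.nT) (x z : Fin p.nX) (i k : Fin p.m) :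
    p.od (colOf p τ i.val k.val) (((x.val * p.m + i.val) * p.nX + z.val) * p.m + k.val) =
      p.c τ x z := by
  have ht := hp.t_pos τ
  obtain ⟨h1, h2⟩ := q_eq hp τ i.val k.val
  have h0 : p.t τ ^ 2 ≤ p.cOf (colOf p τ i.val k.val) := by rw [cOf_colOf hp]; omega
  rw [od_inStrip (inStrip_colOf hp τ i.isLt k.isLt) (by rw [oX_eq]; exact x.isLt)
    (by rw [oZ_eq]; exact z.isLt)]
  rw [if_pos]
  · congr 1
    · exact Fin.ext (oX_eq x z i k)
    · exact Fin.ext (oZ_eq x z i k)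
  · refine ⟨h0, h1, ?_, ?_⟩
    · rw [h2, dec2 (Nat.mod_lt _ ht), Iof_colOf hp τ i.isLt k.isLt, oI_eq, ← enc]
    · rw [h2, dec1 (Nat.mod_lt _ ht), Jof_colOf hp τ i.val k.isLt, oK_eq, ← enc]

theorem eq_colOf (hp : p.Good) (x z : Fin p.nX) (i k : Fin p.m) {col : ℕ}
    (h : p.od col (((x.val * p.m + i.val) * p.nX + z.val) * p.m + k.val) ≠ 0) :
    ∃ τ : Fin p.nT, col = colOf p τ i.val k.val := by
  have hS : ∃ τ : Fin p.nT, p.InStrip τ col := by
    by_contra hn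
    apply h
    unfold Par.od
    rw [dif_neg (fun hh => hn hh.1)]
  obtain ⟨τ, hτ⟩ := hS
  refine ⟨τ, ?_⟩
  have ht := hp.t_pos τ
  rw [od_inStrip hτ (by rw [oX_eq]; exact x.isLt) (by rw [oZ_eq]; exact z.isLt)] at h
  have hc := (ite_ne_right_iff.mp h).1
  obtain ⟨h0, h1, h2, h3⟩ := hc
  rw [oI_eq] at h2
  rw [oK_eq] at h3
  set q := (p.cOf col - p.t τ ^ 2) / 2 with hq
  have hqm : q % p.t τ < p.t τ := Nat.mod_lt _ ht
  have hq2 : q < p.t τ * p.t τ := by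
    have := hτ.2.2.2
    have e : p.t τ ^ 2 = p.t τ * p.t τ := by ring
    omega
  have hqd : q / p.t τ < p.t τ := Nat.div_lt_of_lt_mul hq2
  have e1 : i.val / p.t τ = p.Iof col := by rw [← h2, dec1 hqm]
  have e2 : i.val % p.t τ = q % p.t τ := by
    conv_lhs => rw [← h2]
    exact dec2 hqm
  have e3 : k.val / p.t τ = p.Jof col := by rw [← h3, dec1 hqd]
  have e4 : k.val % p.t τ = q / p.t τ := by
    conv_lhs => rw [← h3]
    exact dec2 hqd
  unfold colOf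
  rw [e1, e2, e3, e4, ← enc]
  have e5 : p.t τ ^ 2 + 2 * q + 1 = p.cOf col := by omega
  rw [e5]
  have e6 : (τ.val * p.m + p.Iof col) * p.m + p.Jof col = col / p.W := by
    have a1 : τ.val = col / p.W / p.m / p.m := by
      rw [Nat.div_div_eq_div_mul]; exact hτ.1.symm
    rw [a1]
    unfold Par.Iof Par.Jof
    rw [← enc, ← enc]
  rw [e6]
  exact enc

theorem colOf_inj (hp : p.Good) {τ τ' : Fin p.nT} {i k : ℕ} (hi : i < p.m) (hk : k < p.m)
    (h : colOf p τ i k = colOf p τ' i k) : τ = τ' := by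
  apply Fin.ext
  rw [← tauOf_colOf hp τ hi hk, ← tauOf_colOf hp τ' hi hk, h]

theorem t_SUMO : Pool.Agent.U514.TG.S_SUMO := by
  intro F V _ p hp x z i k
  classical
  have himg : (univ.image fun τ : Fin p.nT => colOf p τ i.val k.val) ⊆ range p.width := by
    intro col hcol
    obtain ⟨τ, -, rfl⟩ := Finset.mem_image.mp hcol
    exact Finset.mem_range.mpr (colOf_lt hp τ i.isLt k.isLt)
  rw [← Finset.sum_subset himg, Finset.sum_image]
  · refine Finset.sum_congr rfl fun τ _ => ?_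
    rw [val_od hp, val_ox hp τ i.isLt k.isLt]
  · intro τ _ τ' _ h
    exact colOf_inj hp i.isLt k.isLt h
  · intro col _ hcol
    by_cases h : p.od col (((x.val * p.m + i.val) * p.nX + z.val) * p.m + k.val) = 0
    · rw [h, MvPolynomial.C_0, zero_mul]
    · obtain ⟨τ, rfl⟩ := eq_colOf hp x z i k h
      exact absurd (Finset.mem_image_of_mem _ (Finset.mem_univ τ)) hcol

end Pool.Agent.U261.TG
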